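import Pool.Agent.W979.TE.Defs3

/-!
# TE3-ST: few bad stars
-/

set_option autoImplicit false

open Classical

namespace Pool.Agent.W753.TE3ST

open Pool.Agent.W715.BC Pool.Agent.W979.TE3

variable {A B : Type} [Fintype A] [Fintype B]

lemma card_B_le (r : A → B → Prop) {D K : ℕ} (h : Reg r D K) (hD : 0 < D) :
    Fintype.card B ≤ K * Fintype.card A := by
  have h1 : ∑ a : A, deg1 r a = ∑ b : B, deg2 r b := by
    have := Finset.sum_card_bipartiteAbove_eq_sum_card_bipartiteBelow (s := (Finset.univ : Finset A))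
      (t := (Finset.univ : Finset B)) r
    simpa only [deg1, deg2, Finset.bipartiteAbove, Finset.bipartiteBelow] using this
  have h2 : Fintype.card B * D ≤ ∑ b : B, deg2 r b := by
    have := Finset.card_nsmul_le_sum (Finset.univ : Finset B) (fun b => deg2 r b) D
      (fun b _ => h.lb b)
    simpa using this
  have h3 : ∑ a : A, deg1 r a ≤ Fintype.card A * (K * D) := by
    have := Finset.sum_le_card_nsmul (Finset.univ : Finset A) (fun a => deg1 r a) (K * D)
      (fun a _ => h.ua a)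
    simpa using this
  have h4 : Fintype.card B * D ≤ (K * Fintype.card A) * D := by
    calc Fintype.card B * D ≤ ∑ b : B, deg2 r b := h2
      _ = ∑ a : A, deg1 r a := h1.symm
      _ ≤ Fintype.card A * (K * D) := h3
      _ = _ := by ring
  exact Nat.le_of_mul_le_mul_right h4 hD

lemma pair_count (r : A → B → Prop) {D K : ℕ} (h : Reg r D K) (v : A) :
    (Finset.univ.filter (fun z : B × A => r v z.1 ∧ r z.2 z.1)).card ≤ (K * D) * (K * D) := by
  have hsub : (Finset.univ.filter (fun z : B × A => r v z.1 ∧ r z.2 z.1)) ⊆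
      (Finset.univ.filter (fun b : B => r v b)).biUnion
        (fun b => (Finset.univ.filter (fun a : A => r a b)).image (fun a => (b, a))) := by
    rintro ⟨b, a⟩ hz
    simp only [Finset.mem_filter, Finset.mem_univ, true_and] at hz
    simp only [Finset.mem_biUnion, Finset.mem_image, Finset.mem_filter, Finset.mem_univ, true_and]
    exact ⟨b, hz.1, a, hz.2, rfl⟩
  refine (Finset.card_le_card hsub).trans ?_
  refine (Finset.card_biUnion_le_card_mul _ _ (K * D) (fun b _ => ?_)).trans ?_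
  · exact Finset.card_image_le.trans (h.ub b)
  · exact Nat.mul_le_mul_right _ (h.ua v)

lemma star_count (r : A → B → Prop) {D K : ℕ} (h : Reg r D K) (v : A) (k : ℕ) :
    (Finset.univ.filter (fun z : (Fin k → B) × (Fin k → A) =>
      ∀ j, r v (z.1 j) ∧ r (z.2 j) (z.1 j))).card ≤ ((K * D) * (K * D)) ^ k := by
  have h1 : (Finset.univ.filter (fun z : (Fin k → B) × (Fin k → A) =>
      ∀ j, r v (z.1 j) ∧ r (z.2 j) (z.1 j))).card ≤
      (Fintype.piFinset (fun _ : Fin k =>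
        Finset.univ.filter (fun z : B × A => r v z.1 ∧ r z.2 z.1))).card := by
    refine Finset.card_le_card_of_injOn (fun z j => (z.1 j, z.2 j)) ?_ ?_
    · intro z hz
      simp only [Finset.coe_filter, Finset.mem_univ, true_and] at hz
      simp only [Finset.mem_coe, Fintype.mem_piFinset, Finset.mem_filter, Finset.mem_univ, true_and]
      exact hz
    · rintro ⟨y, Q⟩ _ ⟨y', Q'⟩ _ he
      have h1 : ∀ j, (y j, Q j) = (y' j, Q' j) := fun j => congrFun he j
      have h2 : y = y' := funext fun j => (Prod.ext_iff.1 (h1 j)).1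
      have h3 : Q = Q' := funext fun j => (Prod.ext_iff.1 (h1 j)).2
      rw [h2, h3]
  refine h1.trans ?_
  rw [Fintype.card_piFinset_const]
  exact Nat.pow_le_pow_left (pair_count r h v) k

/-- heavy pairs inside the neighbourhood of b -/
noncomputable def Hv (r : A → B → Prop) (L : ℕ) (b : B) : Finset (A × A) :=
  ((Finset.univ.filter (fun a : A => r a b)) ×ˢ (Finset.univ.filter (fun a : A => r a b))).filter
    (fun p : A × A => p.1 = p.2 ∨ L ≤ (cn r p.1 p.2).card)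

/-- stars with a bad pair at k -/
lemma bad1 (r : A → B → Prop) {D K : ℕ} (h : Reg r D K) (q L : ℕ) (k : Fin (q + 1)) :
    (Finset.univ.filter (fun z : A × (Fin (q + 1) → B) × (Fin (q + 1) → A) =>
      (∀ j, r z.1 (z.2.1 j) ∧ r (z.2.2 j) (z.2.1 j)) ∧ ¬ Lk r L z.1 (z.2.2 k))).card ≤
      ∑ b : B, (Hv r L b).card * ((K * D) * (K * D)) ^ q := by
  set S : A → Finset ((Fin q → B) × (Fin q → A)) := fun v =>
    Finset.univ.filter (fun z : (Fin q → B) × (Fin q → A) =>
      ∀ j, r v (z.1 j) ∧ r (z.2 j) (z.1 j)) with hS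
  set T : Finset (B × (A × A) × ((Fin q → B) × (Fin q → A))) :=
    (Finset.univ : Finset B).biUnion (fun b => (Hv r L b).biUnion
      (fun p => (S p.1).image (fun w => (b, p, w)))) with hT
  have h1 : (Finset.univ.filter (fun z : A × (Fin (q + 1) → B) × (Fin (q + 1) → A) =>
      (∀ j, r z.1 (z.2.1 j) ∧ r (z.2.2 j) (z.2.1 j)) ∧ ¬ Lk r L z.1 (z.2.2 k))).card ≤ T.card := by
    refine Finset.card_le_card_of_injOn (fun z => (z.2.1 k, (z.1, z.2.2 k),
      (fun j => z.2.1 (k.succAbove j), fun j => z.2.2 (k.succAbove j)))) ?_ ?_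
    · rintro ⟨v, y, Q⟩ hz
      simp only [Finset.coe_filter, Finset.mem_univ, true_and, Set.mem_ofPred_eq] at hz
      obtain ⟨hadj, hbad⟩ := hz
      rw [hT]
      simp only [Finset.mem_coe, Finset.mem_biUnion, Finset.mem_univ, true_and, Finset.mem_image]
      refine ⟨y k, (v, Q k), ?_, (fun j => y (k.succAbove j), fun j => Q (k.succAbove j)), ?_, rfl⟩
      · unfold Hv
        simp only [Finset.mem_filter, Finset.mem_product, Finset.mem_univ, true_and]
        refine ⟨⟨(hadj k).1, (hadj k).2⟩, ?_⟩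
        by_contra hcon
        push Not at hcon
        refine hbad ⟨hcon.1, ⟨y k, ?_⟩, hcon.2⟩
        unfold cn
        simp only [Finset.mem_filter, Finset.mem_univ, true_and]
        exact hadj k
      · rw [hS]
        simp only [Finset.mem_filter, Finset.mem_univ, true_and]
        intro j
        exact hadj (k.succAbove j)
    · rintro ⟨v, y, Q⟩ _ ⟨v', y', Q'⟩ _ he
      simp only [Prod.mk.injEq] at he
      obtain ⟨e1, ⟨e2, e3⟩, e4, e5⟩ := he
      have hy : y = y' := by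
        funext j
        rcases Fin.eq_self_or_eq_succAbove k j with hj | ⟨i, hi⟩
        · rw [hj]; exact e1
        · rw [hi]; exact congrFun e4 i
      have hQ : Q = Q' := by
        funext j
        rcases Fin.eq_self_or_eq_succAbove k j with hj | ⟨i, hi⟩
        · rw [hj]; exact e3
        · rw [hi]; exact congrFun e5 i
      rw [e2, hy, hQ]
  refine h1.trans ?_
  refine Finset.card_biUnion_le.trans ?_
  refine Finset.sum_le_sum fun b _ => ?_
  refine Finset.card_biUnion_le_card_mul _ _ _ fun p _ => ?_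
  exact Finset.card_image_le.trans (star_count r h p.1 q)

/-- number of connectors -/
lemma conn (r : A → B → Prop) (q L : ℕ) (P : A → (Fin (q + 1) → A) → Prop) :
    (Finset.univ.filter (fun z : A × (Fin (q + 1) → B) × (Fin (q + 1) → A) =>
      (∀ j, r z.1 (z.2.1 j) ∧ r (z.2.2 j) (z.2.1 j)) ∧ (∀ k, Lk r L z.1 (z.2.2 k)) ∧
        P z.1 z.2.2)).card ≤
      (Finset.univ.filter (fun w : A × (Fin (q + 1) → A) =>
        (∀ k, Lk r L w.1 (w.2 k)) ∧ P w.1 w.2)).card * L ^ (q + 1) := by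
  have hsub : (Finset.univ.filter (fun z : A × (Fin (q + 1) → B) × (Fin (q + 1) → A) =>
      (∀ j, r z.1 (z.2.1 j) ∧ r (z.2.2 j) (z.2.1 j)) ∧ (∀ k, Lk r L z.1 (z.2.2 k)) ∧
        P z.1 z.2.2)) ⊆
      (Finset.univ.filter (fun w : A × (Fin (q + 1) → A) =>
        (∀ k, Lk r L w.1 (w.2 k)) ∧ P w.1 w.2)).biUnion (fun w =>
          (Fintype.piFinset (fun j => cn r w.1 (w.2 j))).image (fun y => (w.1, y, w.2))) := by
    rintro ⟨v, y, Q⟩ hz
    simp only [Finset.mem_filter, Finset.mem_univ, true_and] at hz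
    simp only [Finset.mem_biUnion, Finset.mem_image, Finset.mem_filter, Finset.mem_univ, true_and,
      Fintype.mem_piFinset]
    refine ⟨(v, Q), ⟨hz.2.1, hz.2.2⟩, y, fun j => ?_, rfl⟩
    unfold cn
    simp only [Finset.mem_filter, Finset.mem_univ, true_and]
    exact hz.1 j
  refine (Finset.card_le_card hsub).trans ?_
  refine Finset.card_biUnion_le_card_mul _ _ _ fun w hw => ?_
  simp only [Finset.mem_filter, Finset.mem_univ, true_and] at hw
  refine Finset.card_image_le.trans ?_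
  rw [Fintype.card_piFinset]
  calc ∏ j, (cn r w.1 (w.2 j)).card ≤ ∏ _j : Fin (q + 1), L :=
        Finset.prod_le_prod' fun j _ => (hw.1 j).2.2.le
    _ = L ^ (q + 1) := by rw [Finset.prod_const, Finset.card_univ, Fintype.card_fin]

/-- the set of vertices linked to v is small -/
lemma linked_le (r : A → B → Prop) {D K : ℕ} (h : Reg r D K) (L : ℕ) (v : A) :
    (Finset.univ.filter (fun x : A => Lk r L v x)).card ≤ (K * D) * (K * D) := by
  have hsub : (Finset.univ.filter (fun x : A => Lk r L v x)) ⊆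
      (Finset.univ.filter (fun z : B × A => r v z.1 ∧ r z.2 z.1)).image Prod.snd := by
    intro x hx
    simp only [Finset.mem_filter, Finset.mem_univ, true_and] at hx
    obtain ⟨-, ⟨y, hy⟩, -⟩ := hx
    unfold cn at hy
    simp only [Finset.mem_filter, Finset.mem_univ, true_and] at hy
    simp only [Finset.mem_image, Finset.mem_filter, Finset.mem_univ, true_and]
    exact ⟨(y, x), hy, rfl⟩
  exact (Finset.card_le_card hsub).trans (Finset.card_image_le.trans (pair_count r h v))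

lemma bad2 (r : A → B → Prop) (q L : ℕ) :
    (Finset.univ.filter (fun w : A × (Fin (q + 1) → A) =>
        (∀ k, Lk r L w.1 (w.2 k)) ∧ ¬ Nice r L w.2)).card ≤
      ∑ v : A, (Finset.univ.filter (fun Q : Fin (q + 1) → A =>
        (∀ i, Q i ∈ Finset.univ.filter (fun x : A => Lk r L v x)) ∧ ¬ Nice r L Q)).card := by
  have hsub : (Finset.univ.filter (fun w : A × (Fin (q + 1) → A) =>
        (∀ k, Lk r L w.1 (w.2 k)) ∧ ¬ Nice r L w.2)) ⊆
      (Finset.univ : Finset A).biUnion (fun v => (Finset.univ.filter (fun Q : Fin (q + 1) → A =>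
        (∀ i, Q i ∈ Finset.univ.filter (fun x : A => Lk r L v x)) ∧ ¬ Nice r L Q)).image
          (fun Q => (v, Q))) := by
    rintro ⟨v, Q⟩ hw
    simp only [Finset.mem_filter, Finset.mem_univ, true_and] at hw
    simp only [Finset.mem_biUnion, Finset.mem_image, Finset.mem_filter, Finset.mem_univ, true_and]
    exact ⟨v, Q, hw, rfl⟩
  refine (Finset.card_le_card hsub).trans (Finset.card_biUnion_le.trans ?_)
  exact Finset.sum_le_sum fun v _ => Finset.card_image_le

lemma bad3 (r : A → B → Prop) (q L M1 : ℕ) :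
    (Finset.univ.filter (fun w : A × (Fin (q + 1) → A) =>
        (∀ k, Lk r L w.1 (w.2 k)) ∧ (Nice r L w.2 ∧ M1 ≤ (Ft r L w.2).card))).card ≤
      HW r L M1 q := by
  have hsub : (Finset.univ.filter (fun w : A × (Fin (q + 1) → A) =>
        (∀ k, Lk r L w.1 (w.2 k)) ∧ (Nice r L w.2 ∧ M1 ≤ (Ft r L w.2).card))) ⊆
      (Finset.univ.filter (fun Q : Fin (q + 1) → A => Nice r L Q ∧
        M1 ≤ (Ft r L Q).card)).biUnion (fun Q => (Ft r L Q).image (fun v => (v, Q))) := by
    rintro ⟨v, Q⟩ hw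
    simp only [Finset.mem_filter, Finset.mem_univ, true_and] at hw
    simp only [Finset.mem_biUnion, Finset.mem_image, Finset.mem_filter, Finset.mem_univ, true_and]
    refine ⟨Q, hw.2, v, ?_, rfl⟩
    unfold Ft
    simp only [Finset.mem_filter, Finset.mem_univ, true_and]
    exact hw.1
  refine (Finset.card_le_card hsub).trans (Finset.card_biUnion_le.trans ?_)
  unfold HW
  exact Finset.sum_le_sum fun Q _ => Finset.card_image_le

/-- decomposition of the set of the bad stars -/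
lemma bad_all (r : A → B → Prop) (q L M1 : ℕ) :
    StH r q (fun v _ Q => ¬ ((∀ k, Lk r L v (Q k)) ∧ (Ft r L Q).card < M1)) ≤
      ∑ k : Fin (q + 1), (Finset.univ.filter
        (fun z : A × (Fin (q + 1) → B) × (Fin (q + 1) → A) =>
          (∀ j, r z.1 (z.2.1 j) ∧ r (z.2.2 j) (z.2.1 j)) ∧ ¬ Lk r L z.1 (z.2.2 k))).card +
      ((Finset.univ.filter (fun z : A × (Fin (q + 1) → B) × (Fin (q + 1) → A) =>
        (∀ j, r z.1 (z.2.1 j) ∧ r (z.2.2 j) (z.2.1 j)) ∧ (∀ k, Lk r L z.1 (z.2.2 k)) ∧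
          ¬ Nice r L z.2.2)).card +
      (Finset.univ.filter (fun z : A × (Fin (q + 1) → B) × (Fin (q + 1) → A) =>
        (∀ j, r z.1 (z.2.1 j) ∧ r (z.2.2 j) (z.2.1 j)) ∧ (∀ k, Lk r L z.1 (z.2.2 k)) ∧
          (Nice r L z.2.2 ∧ M1 ≤ (Ft r L z.2.2).card))).card) := by
  unfold StH
  have hsub : (Finset.univ.filter (fun z : A × (Fin (q + 1) → B) × (Fin (q + 1) → A) =>
      (∀ k, r z.1 (z.2.1 k) ∧ r (z.2.2 k) (z.2.1 k)) ∧
        ¬ ((∀ k, Lk r L z.1 (z.2.2 k)) ∧ (Ft r L z.2.2).card < M1))) ⊆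
      ((Finset.univ : Finset (Fin (q + 1))).biUnion (fun k => Finset.univ.filter
        (fun z : A × (Fin (q + 1) → B) × (Fin (q + 1) → A) =>
          (∀ j, r z.1 (z.2.1 j) ∧ r (z.2.2 j) (z.2.1 j)) ∧ ¬ Lk r L z.1 (z.2.2 k)))) ∪
      ((Finset.univ.filter (fun z : A × (Fin (q + 1) → B) × (Fin (q + 1) → A) =>
        (∀ j, r z.1 (z.2.1 j) ∧ r (z.2.2 j) (z.2.1 j)) ∧ (∀ k, Lk r L z.1 (z.2.2 k)) ∧
          ¬ Nice r L z.2.2)) ∪
      (Finset.univ.filter (fun z : A × (Fin (q + 1) → B) × (Fin (q + 1) → A) =>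
        (∀ j, r z.1 (z.2.1 j) ∧ r (z.2.2 j) (z.2.1 j)) ∧ (∀ k, Lk r L z.1 (z.2.2 k)) ∧
          (Nice r L z.2.2 ∧ M1 ≤ (Ft r L z.2.2).card)))) := by
    intro z hz
    simp only [Finset.mem_filter, Finset.mem_univ, true_and] at hz
    simp only [Finset.mem_union, Finset.mem_biUnion, Finset.mem_filter, Finset.mem_univ, true_and]
    by_cases h1 : ∀ k, Lk r L z.1 (z.2.2 k)
    · right
      by_cases h2 : Nice r L z.2.2
      · right
        refine ⟨hz.1, h1, h2, ?_⟩
        by_contra h3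
        exact hz.2 ⟨h1, not_le.1 h3⟩
      · left
        exact ⟨hz.1, h1, h2⟩
    · left
      push Not at h1
      obtain ⟨k, hk⟩ := h1
      exact ⟨k, hz.1, hk⟩
  refine le_trans (le_of_eq ?_) ((Finset.card_le_card hsub).trans ?_)
  · congr
  refine (Finset.card_union_le _ _).trans (add_le_add Finset.card_biUnion_le ?_)
  exact Finset.card_union_le _ _

theorem main (hE0 : S_E0) (hNB : S_NB) (hE2 : S_E2) : S_ST := by
  intro s q t K ε hq ht hK hε
  set L := LT s q t with hL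
  have hK1 : (1 : ℝ) ≤ K := by exact_mod_cast hK
  have hL1 : (1 : ℝ) ≤ L := by
    have : 1 ≤ L := by rw [hL]; unfold Pool.Agent.W979.TE3.LT; omega
    exact_mod_cast this
  have hKpos : (0 : ℝ) < K := by linarith
  have hLpos : (0 : ℝ) < L := by linarith
  set β : ℝ := ε / (3 * (q + 1) * (K : ℝ) ^ (2 * q + 3)) with hβ
  set β' : ℝ := ε / (3 * (L : ℝ) ^ (q + 1) * ((K : ℝ) ^ (2 * q + 2) + 1)) with hβ'
  set η : ℝ := ε / (3 * (L : ℝ) ^ (q + 1)) with hη
  have hβ0 : 0 < β := by positivity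
  have hβ0' : 0 < β' := by positivity
  have hη0 : 0 < η := by positivity
  obtain ⟨N0, hN0⟩ := hE0 s q t β hβ0
  obtain ⟨N1, hN1⟩ := hNB s q t (q + 1) β' hβ0'
  obtain ⟨M1, C2, hC2⟩ := hE2 s q t K η hq ht hK hη0
  refine ⟨M1, max C2 (max (N0 : ℝ) (max 1 ((N1 : ℝ) ^ (q + 1) / β'))), ?_⟩
  intro A B _ _ _ r D hreg hCD hCA hno
  have hDC2 : C2 ≤ (D : ℝ) := (le_max_left _ _).trans hCD
  have hDN0 : (N0 : ℝ) ≤ (D : ℝ) :=
    ((le_max_left _ _).trans (le_max_right _ _)).trans hCD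
  have hD1 : (1 : ℝ) ≤ (D : ℝ) :=
    (((le_max_left _ _).trans (le_max_right _ _)).trans (le_max_right _ _)).trans hCD
  have hDN1 : (N1 : ℝ) ^ (q + 1) / β' ≤ (D : ℝ) :=
    (((le_max_right _ _).trans (le_max_right _ _)).trans (le_max_right _ _)).trans hCD
  have hDpos : 0 < D := by
    have : (0 : ℝ) < D := by linarith
    exact_mod_cast this
  have hE := hC2 A B r D hreg hDC2
    ((mul_le_mul_of_nonneg_right (le_max_left _ _) (by positivity)).trans hCA) hno
  have hA0 : (0 : ℝ) ≤ Fintype.card A := Nat.cast_nonneg _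
  have hB : (Fintype.card B : ℝ) ≤ K * Fintype.card A := by
    exact_mod_cast card_B_le r hreg hDpos
  -- heavy pairs
  have hHv : ∀ b : B, ((Hv r L b).card : ℝ) ≤ β * ((K : ℝ) * D) ^ 2 := by
    intro b
    have hdeg1 : D ≤ (Finset.univ.filter (fun a : A => r a b)).card := hreg.lb b
    have hdeg2 : (Finset.univ.filter (fun a : A => r a b)).card ≤ K * D := hreg.ub b
    have hN : N0 ≤ (Finset.univ.filter (fun a : A => r a b)).card := by
      have : N0 ≤ D := by exact_mod_cast hDN0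
      omega
    by_contra hcon
    push Not at hcon
    refine hno (hN0 A B r _ hN ?_)
    refine le_trans ?_ hcon.le
    refine mul_le_mul_of_nonneg_left ?_ hβ0.le
    refine pow_le_pow_left₀ (Nat.cast_nonneg _) ?_ 2
    exact_mod_cast hdeg2
  -- part 1
  have hp1 : ∀ k : Fin (q + 1), (((Finset.univ.filter
        (fun z : A × (Fin (q + 1) → B) × (Fin (q + 1) → A) =>
          (∀ j, r z.1 (z.2.1 j) ∧ r (z.2.2 j) (z.2.1 j)) ∧ ¬ Lk r L z.1 (z.2.2 k))).card : ℕ) : ℝ) ≤
      β * (K : ℝ) ^ (2 * q + 3) * (Fintype.card A * (D : ℝ) ^ (2 * q + 2)) := by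
    intro k
    have h1 := bad1 r hreg q L k
    have h2 : (((Finset.univ.filter
        (fun z : A × (Fin (q + 1) → B) × (Fin (q + 1) → A) =>
          (∀ j, r z.1 (z.2.1 j) ∧ r (z.2.2 j) (z.2.1 j)) ∧ ¬ Lk r L z.1 (z.2.2 k))).card : ℕ) : ℝ) ≤
        ∑ b : B, ((Hv r L b).card : ℝ) * (((K : ℝ) * D) * (K * D)) ^ q := by
      exact_mod_cast h1
    refine h2.trans ?_
    calc ∑ b : B, ((Hv r L b).card : ℝ) * (((K : ℝ) * D) * (K * D)) ^ q
        ≤ ∑ _b : B, (β * ((K : ℝ) * D) ^ 2) * (((K : ℝ) * D) * (K * D)) ^ q :=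
          Finset.sum_le_sum fun b _ => mul_le_mul_of_nonneg_right (hHv b) (by positivity)
      _ = Fintype.card B * ((β * ((K : ℝ) * D) ^ 2) * (((K : ℝ) * D) * (K * D)) ^ q) := by
          rw [Finset.sum_const, Finset.card_univ, nsmul_eq_mul]
      _ ≤ (K * Fintype.card A) * ((β * ((K : ℝ) * D) ^ 2) * (((K : ℝ) * D) * (K * D)) ^ q) :=
          mul_le_mul_of_nonneg_right hB (by positivity)
      _ = β * (K : ℝ) ^ (2 * q + 3) * (Fintype.card A * (D : ℝ) ^ (2 * q + 2)) := by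
          have e1 : (((K : ℝ) * D) * (K * D)) ^ q = (K : ℝ) ^ (2 * q) * (D : ℝ) ^ (2 * q) := by
            rw [← sq, ← pow_mul, mul_pow]
          rw [e1]
          ring
  -- part 2
  have hp2a : ∀ v : A, (((Finset.univ.filter (fun Q : Fin (q + 1) → A =>
        (∀ i, Q i ∈ Finset.univ.filter (fun x : A => Lk r L v x)) ∧ ¬ Nice r L Q)).card : ℕ) : ℝ) ≤
      β' * ((K : ℝ) ^ (2 * q + 2) + 1) * (D : ℝ) ^ (2 * q + 2) := by
    intro v
    have hW := linked_le r hreg L v
    have hWr : (((Finset.univ.filter (fun x : A => Lk r L v x)).card : ℕ) : ℝ) ≤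
        ((K : ℝ) * D) * (K * D) := by exact_mod_cast hW
    have hKD : (((K : ℝ) * D) * (K * D)) ^ (q + 1) =
        (K : ℝ) ^ (2 * q + 2) * (D : ℝ) ^ (2 * q + 2) := by
      rw [← sq, ← pow_mul, mul_pow]
      ring_nf
    by_cases hbig : N1 ≤ (Finset.univ.filter (fun x : A => Lk r L v x)).card
    · have h1 := hN1 A B r _ hno hbig
      refine h1.trans ?_
      have h2 : (((Finset.univ.filter (fun x : A => Lk r L v x)).card : ℕ) : ℝ) ^ (q + 1) ≤
          (K : ℝ) ^ (2 * q + 2) * (D : ℝ) ^ (2 * q + 2) := by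
        rw [← hKD]
        exact pow_le_pow_left₀ (Nat.cast_nonneg _) hWr _
      calc β' * (((Finset.univ.filter (fun x : A => Lk r L v x)).card : ℕ) : ℝ) ^ (q + 1)
          ≤ β' * ((K : ℝ) ^ (2 * q + 2) * (D : ℝ) ^ (2 * q + 2)) :=
            mul_le_mul_of_nonneg_left h2 hβ0'.le
        _ ≤ β' * ((K : ℝ) ^ (2 * q + 2) + 1) * (D : ℝ) ^ (2 * q + 2) := by
            have : 0 ≤ β' * (D : ℝ) ^ (2 * q + 2) := by positivity
            linarith
    · push Not at hbig
      have h1 : (Finset.univ.filter (fun Q : Fin (q + 1) → A =>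
          (∀ i, Q i ∈ Finset.univ.filter (fun x : A => Lk r L v x)) ∧ ¬ Nice r L Q)).card ≤
          N1 ^ (q + 1) := by
        have hsub : (Finset.univ.filter (fun Q : Fin (q + 1) → A =>
            (∀ i, Q i ∈ Finset.univ.filter (fun x : A => Lk r L v x)) ∧ ¬ Nice r L Q)) ⊆
            Fintype.piFinset (fun _ : Fin (q + 1) => Finset.univ.filter
              (fun x : A => Lk r L v x)) := by
          intro Q hQ
          rw [Finset.mem_filter] at hQ
          rw [Fintype.mem_piFinset]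
          exact hQ.2.1
        refine (Finset.card_le_card hsub).trans ?_
        rw [Fintype.card_piFinset_const]
        exact Nat.pow_le_pow_left hbig.le _
      have h2 : (((Finset.univ.filter (fun Q : Fin (q + 1) → A =>
          (∀ i, Q i ∈ Finset.univ.filter (fun x : A => Lk r L v x)) ∧
            ¬ Nice r L Q)).card : ℕ) : ℝ) ≤ (N1 : ℝ) ^ (q + 1) := by
        exact_mod_cast h1
      refine h2.trans ?_
      have h3 : (N1 : ℝ) ^ (q + 1) ≤ β' * D := by
        rw [div_le_iff₀ hβ0'] at hDN1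
        linarith
      have h4 : (D : ℝ) ≤ (D : ℝ) ^ (2 * q + 2) := le_self_pow₀ hD1 (by omega)
      calc (N1 : ℝ) ^ (q + 1) ≤ β' * D := h3
        _ ≤ β' * (D : ℝ) ^ (2 * q + 2) := mul_le_mul_of_nonneg_left h4 hβ0'.le
        _ ≤ β' * ((K : ℝ) ^ (2 * q + 2) + 1) * (D : ℝ) ^ (2 * q + 2) := by
            have : 0 ≤ β' * (K : ℝ) ^ (2 * q + 2) * (D : ℝ) ^ (2 * q + 2) := by positivity
            linarith
  have hp2 : (((Finset.univ.filter (fun z : A × (Fin (q + 1) → B) × (Fin (q + 1) → A) =>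
        (∀ j, r z.1 (z.2.1 j) ∧ r (z.2.2 j) (z.2.1 j)) ∧ (∀ k, Lk r L z.1 (z.2.2 k)) ∧
          ¬ Nice r L z.2.2)).card : ℕ) : ℝ) ≤
      β' * ((K : ℝ) ^ (2 * q + 2) + 1) * (L : ℝ) ^ (q + 1) *
        (Fintype.card A * (D : ℝ) ^ (2 * q + 2)) := by
    have h1 : (Finset.univ.filter (fun z : A × (Fin (q + 1) → B) × (Fin (q + 1) → A) =>
        (∀ j, r z.1 (z.2.1 j) ∧ r (z.2.2 j) (z.2.1 j)) ∧ (∀ k, Lk r L z.1 (z.2.2 k)) ∧
          ¬ Nice r L z.2.2)).card ≤ (∑ v : A, (Finset.univ.filter (fun Q : Fin (q + 1) → A =>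
        (∀ i, Q i ∈ Finset.univ.filter (fun x : A => Lk r L v x)) ∧
          ¬ Nice r L Q)).card) * L ^ (q + 1) := by
      calc _ ≤ (Finset.univ.filter (fun w : A × (Fin (q + 1) → A) =>
            (∀ k, Lk r L w.1 (w.2 k)) ∧ ¬ Nice r L w.2)).card * L ^ (q + 1) := by
            convert conn r q L (fun _ Q => ¬ Nice r L Q)
        _ ≤ _ := Nat.mul_le_mul_right _ (bad2 r q L)
    have h2 : (((Finset.univ.filter (fun z : A × (Fin (q + 1) → B) × (Fin (q + 1) → A) =>
        (∀ j, r z.1 (z.2.1 j) ∧ r (z.2.2 j) (z.2.1 j)) ∧ (∀ k, Lk r L z.1 (z.2.2 k)) ∧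
          ¬ Nice r L z.2.2)).card : ℕ) : ℝ) ≤
        (∑ v : A, (((Finset.univ.filter (fun Q : Fin (q + 1) → A =>
        (∀ i, Q i ∈ Finset.univ.filter (fun x : A => Lk r L v x)) ∧
          ¬ Nice r L Q)).card : ℕ) : ℝ)) * (L : ℝ) ^ (q + 1) := by
      exact_mod_cast h1
    refine h2.trans ?_
    calc _ ≤ (∑ _v : A, β' * ((K : ℝ) ^ (2 * q + 2) + 1) * (D : ℝ) ^ (2 * q + 2)) *
          (L : ℝ) ^ (q + 1) :=
          mul_le_mul_of_nonneg_right (Finset.sum_le_sum fun v _ => hp2a v) (by positivity)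
      _ = _ := by
          rw [Finset.sum_const, Finset.card_univ, nsmul_eq_mul]
          ring
  -- part 3
  have hp3 : (((Finset.univ.filter (fun z : A × (Fin (q + 1) → B) × (Fin (q + 1) → A) =>
        (∀ j, r z.1 (z.2.1 j) ∧ r (z.2.2 j) (z.2.1 j)) ∧ (∀ k, Lk r L z.1 (z.2.2 k)) ∧
          (Nice r L z.2.2 ∧ M1 ≤ (Ft r L z.2.2).card))).card : ℕ) : ℝ) ≤
      η * (L : ℝ) ^ (q + 1) * (Fintype.card A * (D : ℝ) ^ (2 * q + 2)) := by
    have h1 : (Finset.univ.filter (fun z : A × (Fin (q + 1) → B) × (Fin (q + 1) → A) =>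
        (∀ j, r z.1 (z.2.1 j) ∧ r (z.2.2 j) (z.2.1 j)) ∧ (∀ k, Lk r L z.1 (z.2.2 k)) ∧
          (Nice r L z.2.2 ∧ M1 ≤ (Ft r L z.2.2).card))).card ≤ HW r L M1 q * L ^ (q + 1) := by
      calc _ ≤ (Finset.univ.filter (fun w : A × (Fin (q + 1) → A) =>
            (∀ k, Lk r L w.1 (w.2 k)) ∧
              (Nice r L w.2 ∧ M1 ≤ (Ft r L w.2).card))).card * L ^ (q + 1) := by
            convert conn r q L (fun _ Q => Nice r L Q ∧ M1 ≤ (Ft r L Q).card)
        _ ≤ _ := Nat.mul_le_mul_right _ (bad3 r q L M1)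
    have h2 : (((Finset.univ.filter (fun z : A × (Fin (q + 1) → B) × (Fin (q + 1) → A) =>
        (∀ j, r z.1 (z.2.1 j) ∧ r (z.2.2 j) (z.2.1 j)) ∧ (∀ k, Lk r L z.1 (z.2.2 k)) ∧
          (Nice r L z.2.2 ∧ M1 ≤ (Ft r L z.2.2).card))).card : ℕ) : ℝ) ≤
        (HW r L M1 q : ℝ) * (L : ℝ) ^ (q + 1) := by
      exact_mod_cast h1
    refine h2.trans ?_
    calc (HW r L M1 q : ℝ) * (L : ℝ) ^ (q + 1)
        ≤ (η * (Fintype.card A : ℝ) * (D : ℝ) ^ (2 * q + 2)) * (L : ℝ) ^ (q + 1) :=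
          mul_le_mul_of_nonneg_right hE (by positivity)
      _ = _ := by ring
  -- total
  have htot := bad_all r q L M1
  have htot' : (StH r q (fun v _ Q => ¬ ((∀ k, Lk r L v (Q k)) ∧ (Ft r L Q).card < M1)) : ℝ) ≤
      ∑ k : Fin (q + 1), (((Finset.univ.filter
        (fun z : A × (Fin (q + 1) → B) × (Fin (q + 1) → A) =>
          (∀ j, r z.1 (z.2.1 j) ∧ r (z.2.2 j) (z.2.1 j)) ∧
            ¬ Lk r L z.1 (z.2.2 k))).card : ℕ) : ℝ) +
      ((((Finset.univ.filter (fun z : A × (Fin (q + 1) → B) × (Fin (q + 1) → A) =>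
        (∀ j, r z.1 (z.2.1 j) ∧ r (z.2.2 j) (z.2.1 j)) ∧ (∀ k, Lk r L z.1 (z.2.2 k)) ∧
          ¬ Nice r L z.2.2)).card : ℕ) : ℝ) +
      (((Finset.univ.filter (fun z : A × (Fin (q + 1) → B) × (Fin (q + 1) → A) =>
        (∀ j, r z.1 (z.2.1 j) ∧ r (z.2.2 j) (z.2.1 j)) ∧ (∀ k, Lk r L z.1 (z.2.2 k)) ∧
          (Nice r L z.2.2 ∧ M1 ≤ (Ft r L z.2.2).card))).card : ℕ) : ℝ)) := by
    exact_mod_cast htot
  refine htot'.trans ?_
  have hs1 : ∑ k : Fin (q + 1), (((Finset.univ.filter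
        (fun z : A × (Fin (q + 1) → B) × (Fin (q + 1) → A) =>
          (∀ j, r z.1 (z.2.1 j) ∧ r (z.2.2 j) (z.2.1 j)) ∧
            ¬ Lk r L z.1 (z.2.2 k))).card : ℕ) : ℝ) ≤
      ε / 3 * (Fintype.card A * (D : ℝ) ^ (2 * q + 2)) := by
    refine (Finset.sum_le_sum fun k _ => hp1 k).trans (le_of_eq ?_)
    rw [Finset.sum_const, Finset.card_univ, Fintype.card_fin, nsmul_eq_mul, hβ]
    push_cast
    field_simp
  have hs2 : β' * ((K : ℝ) ^ (2 * q + 2) + 1) * (L : ℝ) ^ (q + 1) *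
        (Fintype.card A * (D : ℝ) ^ (2 * q + 2)) =
      ε / 3 * (Fintype.card A * (D : ℝ) ^ (2 * q + 2)) := by
    rw [hβ']
    field_simp
  have hs3 : η * (L : ℝ) ^ (q + 1) * (Fintype.card A * (D : ℝ) ^ (2 * q + 2)) =
      ε / 3 * (Fintype.card A * (D : ℝ) ^ (2 * q + 2)) := by
    rw [hη]
    field_simp
  rw [hs2] at hp2
  rw [hs3] at hp3
  calc _ ≤ ε / 3 * (Fintype.card A * (D : ℝ) ^ (2 * q + 2)) +
        (ε / 3 * (Fintype.card A * (D : ℝ) ^ (2 * q + 2)) +
          ε / 3 * (Fintype.card A * (D : ℝ) ^ (2 * q + 2))) :=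
        add_le_add hs1 (add_le_add hp2 hp3)
    _ = ε * (Fintype.card A : ℝ) * (D : ℝ) ^ (2 * q + 2) := by ring

end Pool.Agent.W753.TE3ST
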