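import Mathlib
import Pool.Agent.W921.VP.DefsB

set_option autoImplicit false

/-!
Project VP (helper921), part TOP: a perfect family of structures of tuples gives a perfect family
of models.
-/

namespace Pool.Agent.W753.VPTOP

open FirstOrder Set MeasureTheory Pool.Agent.W921.VP

section meas

variable {X : Type} [MeasurableSpace X]

open Classical in
lemma count_meas {p : X → ℕ → Prop} (hp : ∀ n, MeasurableSet {x | p x n}) (n : ℕ) :
    Measurable (fun x => Nat.count (p x) n) := by
  induction n with
  | zero => simp only [Nat.count_zero]; exact measurable_const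
  | succ n ih =>
    simp only [Nat.count_succ]
    exact ih.add (Measurable.ite (hp n) measurable_const measurable_const)

lemma nth_meas {p : X → ℕ → Prop} (hp : ∀ n, MeasurableSet {x | p x n})
    (hinf : ∀ x, (Set.ofPred (p x)).Infinite) (n y : ℕ) : MeasurableSet {x | Nat.nth (p x) n = y} := by
  classical
  have e : {x | Nat.nth (p x) n = y} = {x | p x y} ∩ {x | Nat.count (p x) y = n} := by
    ext x
    constructor
    · intro h
      have h' : Nat.nth (p x) n = y := h
      refine ⟨?_, ?_⟩
      · have := Nat.nth_mem_of_infinite (hinf x) n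
        rw [h'] at this
        exact this
      · have := Nat.count_nth_of_infinite (hinf x) n
        rw [h'] at this
        exact this
    · rintro ⟨h1, h2⟩
      have h1' : p x y := h1
      have h2' : Nat.count (p x) y = n := h2
      have := Nat.nth_count h1'
      rw [h2'] at this
      exact this
  rw [e]
  exact (hp y).inter (count_meas hp y (measurableSet_singleton n))

lemma encard_meas {q : X → ℕ → Prop} (hq : ∀ n, MeasurableSet {x | q x n}) (j : ℕ∞) :
    MeasurableSet {x | (Set.ofPred (q x)).encard = j} := by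
  have hge : ∀ n : ℕ, MeasurableSet {x | (n : ℕ∞) ≤ (Set.ofPred (q x)).encard} := by
    intro n
    have e : {x | (n : ℕ∞) ≤ (Set.ofPred (q x)).encard} =
        ⋃ t : {t : Finset ℕ // t.card = n}, ⋂ i : {i // i ∈ t.1}, {x | q x i} := by
      ext x
      simp only [mem_iUnion, mem_iInter]
      constructor
      · intro h
        obtain ⟨t, ht, htc⟩ := Set.exists_subset_encard_eq h
        have hfin : t.Finite := by
          apply Set.finite_of_encard_eq_coe htc
        refine ⟨⟨hfin.toFinset, ?_⟩, ?_⟩
        · have := hfin.encard_eq_coe_toFinset_card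
          rw [htc] at this
          exact_mod_cast this.symm
        · rintro ⟨i, hi⟩
          exact ht (hfin.mem_toFinset.1 hi)
      · rintro ⟨⟨t, ht⟩, h⟩
        have hsub : (t : Set ℕ) ⊆ Set.ofPred (q x) := fun i hi => h ⟨i, hi⟩
        have := Set.encard_le_encard hsub
        rw [Set.encard_coe_eq_coe_finsetCard, ht] at this
        exact this
    rw [e]
    exact MeasurableSet.iUnion fun t => MeasurableSet.iInter fun i => hq _
  induction j with
  | top =>
    have e : {x | (Set.ofPred (q x)).encard = ⊤} = ⋂ n : ℕ, {x | (n : ℕ∞) ≤ (Set.ofPred (q x)).encard} := by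
      ext x
      simp only [mem_iInter]
      constructor
      · intro h n
        have h' : (Set.ofPred (q x)).encard = ⊤ := h
        change (n : ℕ∞) ≤ _
        rw [h']; exact le_top
      · intro h
        exact ENat.eq_top_iff_forall_ge.2 h
    rw [e]
    exact MeasurableSet.iInter hge
  | coe n =>
    have e : {x | (Set.ofPred (q x)).encard = (n : ℕ∞)} = {x | (n : ℕ∞) ≤ (Set.ofPred (q x)).encard} \
        {x | ((n + 1 : ℕ) : ℕ∞) ≤ (Set.ofPred (q x)).encard} := by
      ext x
      constructor
      · intro h
        have h' : (Set.ofPred (q x)).encard = n := h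
        refine ⟨h'.ge, ?_⟩
        intro h2
        have h2' : ((n + 1 : ℕ) : ℕ∞) ≤ (Set.ofPred (q x)).encard := h2
        rw [h'] at h2'
        have : n + 1 ≤ n := by exact_mod_cast h2'
        omega
      · rintro ⟨h1, h2⟩
        have h1' : (n : ℕ∞) ≤ (Set.ofPred (q x)).encard := h1
        have h2' : ¬ ((n + 1 : ℕ) : ℕ∞) ≤ (Set.ofPred (q x)).encard := h2
        change _ = _
        push Not at h2'
        push_cast at h2'
        exact le_antisymm ((ENat.lt_add_one_iff (ENat.natCast_ne_top n)).1 h2') h1'
    rw [e]
    exact (hge n).diff (hge (n + 1))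

end meas

/-- isomorphisms compose -/
lemma isom_trans {L : FirstOrder.Language.{0, 0}} {M N P : Type} {S : L.Structure M}
    {S' : L.Structure N} {S'' : L.Structure P} (h : Isom S S') (h' : Isom S' S'') :
    Isom S S'' := by
  obtain ⟨e, he⟩ := h
  obtain ⟨e', he'⟩ := h'
  exact ⟨e.trans e', fun n R s => (he n R s).trans (he' n R _)⟩

lemma isom_symm {L : FirstOrder.Language.{0, 0}} {M N : Type} {S : L.Structure M}
    {S' : L.Structure N} (h : Isom S S') : Isom S' S := by
  obtain ⟨e, he⟩ := h
  refine ⟨e.symm, fun n R s => ?_⟩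
  rw [he n R]
  have : (fun i => e (e.symm (s i))) = s := by
    funext i; exact e.apply_symm_apply _
  rw [this]

/-- isomorphic structures are models of the same theories -/
lemma mods_of_isom {L : FirstOrder.Language.{0, 0}} (hL : L.IsRelational) {M N : Type}
    {S : L.Structure M} {S' : L.Structure N} (T : L.Theory) (h : Isom S S') (hm : Mods S T) :
    Mods S' T := by
  obtain ⟨e, he⟩ := h
  let _ := S
  let _ := S'
  have E : M ≃[L] N :=
    { toEquiv := e
      map_fun' := fun {n} f _ => isEmptyElim f
      map_rel' := fun {n} R s => (he n R s).symm }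
  have hm' : M ⊨ T := hm
  exact FirstOrder.Language.StrongHomClass.theory_model E

theorem task (h1 : S_SM) (h2 : S_DEC) (h3 : S_ISO) : S_TOP := by
  classical
  intro L hcs hrel T f hax hinj hclo
  have _ := hcs
  have _ := hrel
  -- countability of the space of codes
  have hcr : ∀ n, Countable (L.Relations n) := by
    intro n
    have : Function.Injective (fun R : L.Relations n => (Sum.inr ⟨n, R⟩ : L.Symbols)) := by
      intro R R' h
      have := Sum.inr_injective h
      simpa using this
    exact this.countable
  have hdec := fun x => h2 L T ℕ (f x) (hax x)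
  -- truth values are measurable
  have hm : ∀ (n : ℕ) (R : (TL L).Relations n) (a : Fin n → ℕ),
      MeasurableSet {x | (f x).RelMap R a} := fun n R a => (hclo n R a).isOpen.measurableSet
  have hLen : ∀ n y, MeasurableSet {x | Len (f x) n y} := fun n y => hm _ _ _
  have hSub : ∀ n k v y z, MeasurableSet {x | Sub (f x) n k v y z} := fun n k v y z => hm _ _ _
  have hSat : ∀ n φ y, MeasurableSet {x | Sat (f x) n φ y} := fun n φ y => hm _ _ _
  have hinf : ∀ x, (Set.ofPred (Len (f x) 1)).Infinite := by
    intro x
    have := (hdec x).2.2.2.2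
    exact Set.infinite_coe_iff.1 this
  -- the enumeration
  have hmem : ∀ x n, Len (f x) 1 (Nat.nth (Len (f x) 1) n) := fun x n =>
    Nat.nth_mem_of_infinite (hinf x) n
  let E : ∀ x, ℕ → Pt (f x) := fun x n => ⟨Nat.nth (Len (f x) 1) n, hmem x n⟩
  have hE : ∀ x, Function.Bijective (E x) := by
    intro x
    constructor
    · intro m n h
      exact Nat.nth_injective (hinf x) (congrArg Subtype.val h)
    · rintro ⟨y, hy⟩
      exact ⟨Nat.count (Len (f x) 1) y, Subtype.ext (Nat.nth_count hy)⟩
  have hnth : ∀ n y, MeasurableSet {x | Nat.nth (Len (f x) 1) n = y} := fun n y =>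
    nth_meas (hLen 1) hinf n y
  -- the codes
  let g : (ℕ → Bool) → Code L := fun x q =>
    decide ((dec (f x)).RelMap q.2.1 (fun i => E x (q.2.2 i)))
  have hgm : ∀ q : (Σ n, L.Relations n × (Fin n → ℕ)), MeasurableSet {x | g x q = true} := by
    rintro ⟨k, R, a⟩
    have e : {x | g x ⟨k, R, a⟩ = true} = ⋃ z : ℕ, ({x | Len (f x) k z} ∩
        (⋂ i : Fin k, ⋃ y : ℕ, ({x | Nat.nth (Len (f x) 1) (a i) = y} ∩
          {x | Sub (f x) k 1 (fun _ => i) z y}))) ∩ {x | Sat (f x) k (relF k R id) z} := by
      ext x
      have e1 : x ∈ {x | g x ⟨k, R, a⟩ = true} ↔ ∃ z, Ent (f x) z (fun i => E x (a i)) ∧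
          Sat (f x) k (relF k R id) z := by
        change decide _ = true ↔ _
        rw [decide_eq_true_iff]
        exact Iff.rfl
      rw [e1]
      simp only [mem_iUnion, mem_inter_iff, mem_iInter]
      constructor
      · rintro ⟨z, ⟨hz1, hz2⟩, hz3⟩
        exact ⟨z, ⟨hz1, fun i => ⟨_, rfl, hz2 i⟩⟩, hz3⟩
      · rintro ⟨z, ⟨hz1, hz2⟩, hz3⟩
        refine ⟨z, ⟨hz1, fun i => ?_⟩, hz3⟩
        obtain ⟨y, hy1, hy2⟩ := hz2 i
        have hy1' : Nat.nth (Len (f x) 1) (a i) = y := hy1
        have hy2' : Sub (f x) k 1 (fun _ => i) z y := hy2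
        change Sub (f x) k 1 (fun _ => i) z (Nat.nth (Len (f x) 1) (a i))
        rw [hy1']
        exact hy2'
    rw [e]
    exact MeasurableSet.iUnion fun z => (((hLen k z).inter (MeasurableSet.iInter fun i =>
      MeasurableSet.iUnion fun y => (hnth _ _).inter (hSub _ _ _ _ _)))).inter (hSat _ _ _)
  have hg : Measurable g := by
    rw [measurable_pi_iff]
    intro q
    apply measurable_to_bool
    exact hgm q
  -- the junk
  have hjunk : ∀ n, MeasurableSet {x | n ∈ junk (f x)} := by
    intro n
    have e : {x | n ∈ junk (f x)} = ⋂ k : ℕ, {x | Len (f x) k n}ᶜ := by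
      ext x
      simp only [mem_iInter]
      rfl
    rw [e]
    exact MeasurableSet.iInter fun k => (hLen k n).compl
  have hJ : ∀ j, MeasurableSet {x | (junk (f x)).encard = j} := fun j =>
    encard_meas (q := fun x n => n ∈ junk (f x)) hjunk j
  obtain ⟨j, hj⟩ : ∃ j : ℕ∞, ¬ {x | (junk (f x)).encard = j}.Countable := by
    by_contra hc
    push Not at hc
    have : (⋃ j : ℕ∞, {x | (junk (f x)).encard = j}).Countable := Set.countable_iUnion hc
    have hu : (⋃ j : ℕ∞, {x | (junk (f x)).encard = j}) = Set.univ := by
      ext x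
      simp
    rw [hu] at this
    rw [Set.countable_univ_iff] at this
    obtain ⟨s, hs⟩ := exists_surjective_nat (ℕ → Bool)
    obtain ⟨n, hn⟩ := hs (fun k => !(s k k))
    have := congrFun hn n
    simp at this
  -- the Polish space
  have hP : PolishSpace ((ℕ → Bool) × Code L) := by
    have hc : Countable (Σ n, L.Relations n × (Fin n → ℕ)) := inferInstance
    have p1 : SecondCountableTopology ((ℕ → Bool) × Code L) := inferInstance
    have p2 : TopologicalSpace.IsCompletelyMetrizableSpace ((ℕ → Bool) × Code L) := inferInstance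
    exact {}
  let B : Set ((ℕ → Bool) × Code L) := {p | p.2 = g p.1 ∧ (junk (f p.1)).encard = j}
  have hB : MeasurableSet B := by
    have b1 : MeasurableSet {p : (ℕ → Bool) × Code L | p.2 = g p.1} := by
      have e : {p : (ℕ → Bool) × Code L | p.2 = g p.1} =
          ⋂ q, {p : (ℕ → Bool) × Code L | p.2 q = g p.1 q} := by
        ext p
        simp only [mem_iInter]
        exact ⟨fun h q => congrFun h q, fun h => funext h⟩
      rw [e]
      refine MeasurableSet.iInter fun q => ?_
      exact measurableSet_eq_fun ((measurable_pi_apply q).comp measurable_snd)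
        ((measurable_pi_apply q).comp (hg.comp measurable_fst))
    have b2 : MeasurableSet {p : (ℕ → Bool) × Code L | (junk (f p.1)).encard = j} :=
      measurable_fst (hJ j)
    exact b1.inter b2
  have himg : ¬ ((Prod.fst : (ℕ → Bool) × Code L → (ℕ → Bool)) '' B).Countable := by
    intro hc
    apply hj
    apply hc.mono
    intro x hx
    exact ⟨(x, g x), ⟨rfl, hx⟩, rfl⟩
  obtain ⟨h, hcont, hmemB, hin⟩ := h1 ((ℕ → Bool) × Code L) B Prod.fst hB measurable_fst himg
  -- the family
  have hiso : ∀ x, Isom (str (h x).2) (dec (f (h x).1)) := by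
    intro x
    refine ⟨Equiv.ofBijective (E (h x).1) (hE _), ?_⟩
    intro n R s
    have e1 : (h x).2 = g (h x).1 := (hmemB x).1
    change (h x).2 ⟨n, R, s⟩ = true ↔ _
    rw [e1]
    change decide _ = true ↔ _
    rw [decide_eq_true_iff]
    rfl
  refine ⟨fun x => str (h x).2, ?_, ?_, ?_⟩
  · intro x
    exact mods_of_isom hrel T (isom_symm (hiso x)) (hdec _).2.2.2.1
  · intro x y hxy
    have k1 : Isom (dec (f (h x).1)) (dec (f (h y).1)) :=
      isom_trans (isom_trans (isom_symm (hiso x)) hxy) (hiso y)
    have k2 := (h3 L T ℕ ℕ (f (h x).1) (f (h y).1) inferInstance inferInstance (hax _)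
      (hax _)).2 k1 ((hmemB x).2.trans (hmemB y).2.symm)
    exact hin (hinj _ _ k2)
  · intro n R a
    have e : {x | (str (h x).2).RelMap R a} = (fun x => (h x).2 ⟨n, R, a⟩) ⁻¹' {true} := by
      ext x
      rfl
    rw [e]
    apply (isClopen_discrete {true}).preimage
    exact (continuous_apply _).comp (continuous_snd.comp hcont)

end Pool.Agent.W753.VPTOP
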